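import Pool.Agent.Q36.PartExp.Order

open scoped Topology BigOperators Classical
open Filter Finset Pool.Agent.Q36.PartExp

namespace Pool.Agent.Results.MP_fabcd1_nt.OddPartsModThree

/-- The class `F` of polynomials: integer valued on `ℤ`, positive and (strictly) increasing
from some point on, and such that for every prime `p` some value is not divisible by `p`. -/
structure ClassF (f : Polynomial ℚ) : Prop where
  intValued : ∀ x : ℤ, ∃ y : ℤ, f.eval (x : ℚ) = y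
  posIncreasing : ∃ n₀ : ℤ, ∀ n : ℤ, n₀ ≤ n →
    0 < f.eval (n : ℚ) ∧ f.eval (n : ℚ) < f.eval ((n + 1 : ℤ) : ℚ)
  noFixedDivisor : ∀ p : ℕ, p.Prime → ∃ x : ℤ, ¬ ∃ y : ℤ, f.eval (x : ℚ) = (p : ℚ) * y

/-- The set `S_f = {f(n) : n ≥ 1}` (as a set of natural numbers). -/
def Sf (f : Polynomial ℚ) : Set ℕ := {s | ∃ n : ℕ, 1 ≤ n ∧ (s : ℚ) = f.eval (n : ℚ)}

/-- the polynomial `2 X - 1` -/
noncomputable def f0 : Polynomial ℚ := 2 * Polynomial.X - 1

lemma eval_f0 (x : ℚ) : f0.eval x = 2 * x - 1 := by simp [f0]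

lemma classF_f0 : ClassF f0 where
  intValued x := ⟨2 * x - 1, by rw [eval_f0]; push_cast; ring⟩
  posIncreasing := ⟨1, fun n hn => by
    have : (1 : ℚ) ≤ n := by exact_mod_cast hn
    rw [eval_f0, eval_f0]
    push_cast
    constructor <;> linarith⟩
  noFixedDivisor p hp := ⟨1, by
    rintro ⟨y, hy⟩
    rw [eval_f0] at hy
    have h1 : (1 : ℤ) = p * y := by
      have : (1 : ℚ) = p * y := by rw [← hy]; norm_num
      exact_mod_cast this
    have h2 : (p : ℤ) ∣ 1 := ⟨y, h1⟩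
    have h3 : p ∣ 1 := by exact_mod_cast h2
    exact hp.one_lt.ne' (Nat.dvd_one.1 h3)⟩

lemma mem_Sf (n : ℕ) : n ∈ Sf f0 ↔ ∃ m, n = 2 * m + 1 := by
  constructor
  · rintro ⟨k, hk, he⟩
    rw [eval_f0] at he
    refine ⟨k - 1, ?_⟩
    obtain ⟨j, rfl⟩ : ∃ j, k = j + 1 := ⟨k - 1, by omega⟩
    have : (n : ℚ) = ((2 * j + 1 : ℕ) : ℚ) := by rw [he]; push_cast; ring
    have h2 : n = 2 * j + 1 := by exact_mod_cast this
    rw [h2]; simp
  · rintro ⟨m, rfl⟩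
    refine ⟨m + 1, by omega, ?_⟩
    rw [eval_f0]; push_cast; ring

lemma isAP : IsAP (· ∈ Sf f0) 2 1 := ⟨by norm_num, le_rfl, fun n _ => mem_Sf n⟩

lemma cases1 {ζ : ℂ} (h : ζ ^ 2 = 1) :
    ∃ x : ℝ, 1 / 6 ≤ x ∧ x ≤ 5 / 6 ∧ ee (1 / 3) * ζ ^ 1 = ee x := by
  rcases mul_self_eq_one_iff.1 ((sq ζ).symm.trans h) with rfl | rfl
  · exact ⟨1 / 3, by norm_num, by norm_num, by simp⟩
  · refine ⟨5 / 6, by norm_num, by norm_num, ?_⟩
    rw [pow_one, ← ee_half, ← ee_add]; norm_num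

lemma cases2 {ζ : ℂ} (h : ζ ^ 2 = 1) :
    ∃ x : ℝ, 1 / 6 ≤ x ∧ x ≤ 5 / 6 ∧ ee (2 / 3) * ζ ^ 1 = ee x := by
  rcases mul_self_eq_one_iff.1 ((sq ζ).symm.trans h) with rfl | rfl
  · exact ⟨2 / 3, by norm_num, by norm_num, by simp⟩
  · refine ⟨1 / 6, by norm_num, by norm_num, ?_⟩
    rw [pow_one, ← ee_half, ← ee_add, show (2 / 3 + 1 / 2 : ℝ) = 1 / 6 + 1 by norm_num, ee_add,
      ee_one, mul_one]

/-- The answer to Q1 is negative: the polynomial `f = 2X - 1` belongs to the class `F`, and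
for `S = S_f = {1, 3, 5, …}` and `m = 3` the sequence of listings `u_n` is not eventually
periodic. -/
theorem result : ClassF (2 * Polynomial.X - 1) ∧
    ¬ ∃ T : ℕ, 1 ≤ T ∧ ∃ N : ℕ, ∀ n ≥ N,
      ordering (Sf (2 * Polynomial.X - 1)) 3 (n + T) =
        ordering (Sf (2 * Polynomial.X - 1)) 3 n := by
  refine ⟨classF_f0, ?_⟩
  rintro ⟨p, hp, N, hN⟩
  set S := Sf (2 * Polynomial.X - 1) with hSdef
  have hAP : IsAP (· ∈ S) 2 1 := isAP
  have hper : ∀ n ≥ N, eps S (n + p) = eps S n := by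
    intro n hn
    unfold eps
    rw [hN n hn]
  have hw1 : ‖ee (1 / 3)‖ ≤ 1 := (norm_ee _).le
  have hw2 : ‖ee (2 / 3)‖ ≤ 1 := (norm_ee _).le
  have hζ := Complex.isPrimitiveRoot_exp p (by omega)
  set ζ := Complex.exp (2 * Real.pi * Complex.I / p) with hζdef
  have hz : ‖ζ‖ = 1 := hζ.norm'_eq_one (by omega)
  have hzj : ∀ j : ℕ, ‖ζ ^ j‖ = 1 := fun j => by rw [norm_pow, hz, one_pow]
  set d : ℕ → ℝ := fun n => (pS S 0 3 n : ℝ) - pS S 1 3 n with hd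
  have hdn : ∀ n, |d n| ≤ ‖cw (· ∈ S) (ee (1 / 3)) n‖ + ‖cw (· ∈ S) (ee (2 / 3)) n‖ := by
    intro n
    rw [← Real.norm_eq_abs, ← Complex.norm_real, hd]
    simp only
    rw [diff_eq, norm_div]
    have h3 : ‖(3 : ℂ)‖ = 3 := by norm_num
    rw [h3]
    have h4 : ‖(1 - ee (2 / 3))‖ ≤ 2 := by
      calc ‖(1 - ee (2 / 3))‖ ≤ ‖(1 : ℂ)‖ + ‖ee (2 / 3)‖ := norm_sub_le _ _
        _ = 2 := by rw [norm_one, norm_ee]; norm_num
    have h5 : ‖(1 - ee (1 / 3))‖ ≤ 2 := by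
      calc ‖(1 - ee (1 / 3))‖ ≤ ‖(1 : ℂ)‖ + ‖ee (1 / 3)‖ := norm_sub_le _ _
        _ = 2 := by rw [norm_one, norm_ee]; norm_num
    have h6 := norm_add_le ((1 - ee (2 / 3)) * cw (· ∈ S) (ee (1 / 3)) n)
      ((1 - ee (1 / 3)) * cw (· ∈ S) (ee (2 / 3)) n)
    rw [norm_mul, norm_mul] at h6
    have h7 := mul_le_mul_of_nonneg_right h4 (norm_nonneg (cw (· ∈ S) (ee (1 / 3)) n))
    have h8 := mul_le_mul_of_nonneg_right h5 (norm_nonneg (cw (· ∈ S) (ee (2 / 3)) n))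
    have h9 := norm_nonneg (cw (· ∈ S) (ee (1 / 3)) n)
    have h10 := norm_nonneg (cw (· ∈ S) (ee (2 / 3)) n)
    rw [div_le_iff₀ (by norm_num)]
    linarith
  have hsum : ∀ r : ℝ, 0 ≤ r → r < 1 → Summable (fun n => |d n| * r ^ n) := by
    intro r hr0 hr
    have h := (summable_cw (A := (· ∈ S)) hw1 hr0 hr).add
      (summable_cw (A := (· ∈ S)) hw2 hr0 hr)
    refine h.of_nonneg_of_le (fun n => by positivity) fun n => ?_
    rw [← add_mul]
    exact mul_le_mul_of_nonneg_right (hdn n) (pow_nonneg hr0 n)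
  obtain ⟨C, hC, hb⟩ := sign_bound d (eps S) p N (by omega)
    (fun n => by unfold eps; split_ifs <;> simp) hper (fun n _ => eps_mul S n) hsum hζ
  -- the two generating functions
  have hE1 : ∀ x : ℂ, ‖x‖ < 1 → Summable (fun n => cw (· ∈ S) (ee (1 / 3)) n * x ^ n) := by
    intro x hx
    refine Summable.of_norm ?_
    simp_rw [norm_mul, norm_pow]
    exact summable_cw (A := (· ∈ S)) hw1 (norm_nonneg x) hx
  have hE2 : ∀ x : ℂ, ‖x‖ < 1 → Summable (fun n => cw (· ∈ S) (ee (2 / 3)) n * x ^ n) := by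
    intro x hx
    refine Summable.of_norm ?_
    simp_rw [norm_mul, norm_pow]
    exact summable_cw (A := (· ∈ S)) hw2 (norm_nonneg x) hx
  have hF : ∀ x : ℂ, ‖x‖ < 1 → ∑' n, (d n : ℂ) * x ^ n =
      ((1 - ee (2 / 3)) * ∑' n, cw (· ∈ S) (ee (1 / 3)) n * x ^ n +
        (1 - ee (1 / 3)) * ∑' n, cw (· ∈ S) (ee (2 / 3)) n * x ^ n) / 3 := by
    intro x hx
    rw [← tsum_mul_left, ← tsum_mul_left, ← ((hE1 x hx).mul_left _).tsum_add
      ((hE2 x hx).mul_left _), ← tsum_div_const]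
    refine tsum_congr fun n => ?_
    rw [hd]
    simp only
    rw [diff_eq]
    ring
  have hn1 : ‖(1 - ee (2 / 3))‖ ^ 2 = 3 := by
    rw [← Complex.normSq_eq_norm_sq, Complex.normSq_apply, Complex.sub_re, Complex.sub_im,
      re_ee, im_ee, show 2 * Real.pi * (2 / 3) = Real.pi / 3 + Real.pi by ring,
      Real.cos_add_pi, Real.sin_add_pi, Real.cos_pi_div_three, Real.sin_pi_div_three,
      Complex.one_re, Complex.one_im]
    have := Real.sq_sqrt (show (0 : ℝ) ≤ 3 by norm_num)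
    nlinarith
  have hn2 : ‖(1 - ee (1 / 3))‖ ^ 2 = 3 := by
    rw [← Complex.normSq_eq_norm_sq, Complex.normSq_apply, Complex.sub_re, Complex.sub_im,
      re_ee, im_ee, show 2 * Real.pi * (1 / 3) = Real.pi - Real.pi / 3 by ring,
      Real.cos_pi_sub, Real.sin_pi_sub, Real.cos_pi_div_three, Real.sin_pi_div_three,
      Complex.one_re, Complex.one_im]
    have := Real.sq_sqrt (show (0 : ℝ) ≤ 3 by norm_num)
    nlinarith
  set c1 := ‖(1 - ee (2 / 3))‖ with hc1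
  set c2 := ‖(1 - ee (1 / 3))‖ with hc2
  have hc10 : 0 ≤ c1 := norm_nonneg _
  have hc20 : 0 ≤ c2 := norm_nonneg _
  have hcc : c1 = c2 := by nlinarith
  have hc3 : c1 ≤ 2 := by nlinarith
  have hc4 : 3 / 2 ≤ c1 := by nlinarith
  -- upper bound
  have hup : ∀ x : ℂ, ‖x‖ < 1 → ‖∑' n, (d n : ℂ) * x ^ n‖ ≤
      Real.exp (GG (· ∈ S) (ee (1 / 3)) x).re + Real.exp (GG (· ∈ S) (ee (2 / 3)) x).re := by
    intro x hx
    rw [hF x hx, ← norm_gf (A := (· ∈ S)) hw1 hx, ← norm_gf (A := (· ∈ S)) hw2 hx, norm_div]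
    have h3 : ‖(3 : ℂ)‖ = 3 := by norm_num
    rw [h3, div_le_iff₀ (by norm_num)]
    refine (norm_add_le _ _).trans ?_
    rw [norm_mul, norm_mul]
    have h9 := norm_nonneg (∑' n, cw (· ∈ S) (ee (1 / 3)) n * x ^ n)
    have h10 := norm_nonneg (∑' n, cw (· ∈ S) (ee (2 / 3)) n * x ^ n)
    nlinarith
  -- lower bound
  have hlow : ∀ x : ℂ, ‖x‖ < 1 → Real.exp (GG (· ∈ S) (ee (2 / 3)) x).re ≤
      Real.exp (GG (· ∈ S) (ee (1 / 3)) x).re + 2 * ‖∑' n, (d n : ℂ) * x ^ n‖ := by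
    intro x hx
    rw [← norm_gf (A := (· ∈ S)) hw1 hx, ← norm_gf (A := (· ∈ S)) hw2 hx]
    set E1 := ∑' n, cw (· ∈ S) (ee (1 / 3)) n * x ^ n with hE1'
    set E2 := ∑' n, cw (· ∈ S) (ee (2 / 3)) n * x ^ n with hE2'
    have h1 : (1 - ee (1 / 3)) * E2 = 3 * (∑' n, (d n : ℂ) * x ^ n) - (1 - ee (2 / 3)) * E1 := by
      rw [hF x hx]; ring
    have h2 : c2 * ‖E2‖ ≤ 3 * ‖∑' n, (d n : ℂ) * x ^ n‖ + c1 * ‖E1‖ := by
      rw [hc2, ← norm_mul, h1]
      refine (norm_sub_le _ _).trans ?_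
      rw [norm_mul, norm_mul]
      have h3 : ‖(3 : ℂ)‖ = 3 := by norm_num
      rw [h3]
    rw [← hcc] at h2
    have h9 := norm_nonneg E1
    have h10 := norm_nonneg E2
    have h11 := norm_nonneg (∑' n, (d n : ℂ) * x ^ n)
    have h12 : c1 * ‖E2‖ ≤ c1 * (‖E1‖ + 2 * ‖∑' n, (d n : ℂ) * x ^ n‖) := by nlinarith
    exact le_of_mul_le_mul_left h12 (by linarith)
  -- the special point
  have h0 : (-1 : ℂ) ^ 2 = 1 := by norm_num
  have h1 : ee (2 / 3) * (-1) ^ 1 = ee (1 / 6) := by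
    rw [pow_one, ← ee_half, ← ee_add, show (2 / 3 + 1 / 2 : ℝ) = 1 / 6 + 1 by norm_num,
      ee_add, ee_one, mul_one]
  have h1' : ee (1 / 3) * (-1) ^ 1 = ee (5 / 6) := by
    rw [pow_one, ← ee_half, ← ee_add]; norm_num
  have hm1 : ‖(-1 : ℂ)‖ = 1 := by simp
  refine growth_contra ((Finset.univ : Finset (Fin 3)) ×ˢ range p)
    (fun s => (GG (· ∈ S) (ee (2 / 3)) (pt (-1) 1 s)).re)
    (fun q s => if q.1 = 0 then (GG (· ∈ S) (ee (1 / 3)) (pt (-1) 1 s)).re else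
      if q.1 = 1 then (GG (· ∈ S) (ee (1 / 3)) (pt (ζ ^ q.2) 0 s)).re else
        (GG (· ∈ S) (ee (2 / 3)) (pt (ζ ^ q.2) 0 s)).re)
    (fun q => if q.1 = 0 then (∑' k, lm 2 1 (ee (1 / 3)) (-1) 1 k).re else
      if q.1 = 1 then (∑' k, lm 2 1 (ee (1 / 3)) (ζ ^ q.2) 0 k).re else
        (∑' k, lm 2 1 (ee (2 / 3)) (ζ ^ q.2) 0 k).re)
    (m := Real.pi ^ 2 / 24 / (2 : ℕ)) (K := 2) (C := 2 * C) (by positivity)
    (nonradial_gt (by norm_num) h0 h1) ?_ (by norm_num) (by linarith)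
    (tendsto_re_GG hAP hw2 hm1 1) ?_ ?_
  · rintro ⟨t, j⟩ _
    fin_cases t
    · simpa using nonradial_conj_le (a := 2) (b := 1) (by norm_num) h0 h1'
    · simpa using radial_le (a := 2) (b := 1) (by norm_num) hw1 (hzj j) (fun h => cases1 h)
    · simpa using radial_le (a := 2) (b := 1) (by norm_num) hw2 (hzj j) (fun h => cases2 h)
  · rintro ⟨t, j⟩ _
    fin_cases t
    · simpa using tendsto_re_GG hAP hw1 hm1 1
    · simpa using tendsto_re_GG hAP hw1 (hzj j) 0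
    · simpa using tendsto_re_GG hAP hw2 (hzj j) 0
  · filter_upwards [self_mem_nhdsWithin] with s hs
    have hs' : (0 : ℝ) < s := hs
    have hx := norm_pt_lt hm1 1 hs'
    have h2 := hb _ hx
    have h3 := hlow _ hx
    rw [Finset.sum_product, Fin.sum_univ_three]
    simp only [if_true, Fin.isValue]
    have e0 : (1 : Fin 3) ≠ 0 := by decide
    have e1 : (2 : Fin 3) ≠ 0 := by decide
    have e2 : (2 : Fin 3) ≠ 1 := by decide
    simp only [e0, e1, e2, if_false]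
    have h4 : Real.exp (GG (· ∈ S) (ee (1 / 3)) (pt (-1) 1 s)).re ≤
        ∑ _j ∈ range p, Real.exp (GG (· ∈ S) (ee (1 / 3)) (pt (-1) 1 s)).re := by
      rw [Finset.sum_const, card_range, nsmul_eq_mul]
      have h5 : (1 : ℝ) ≤ p := by exact_mod_cast hp
      have h6 := Real.exp_pos (GG (· ∈ S) (ee (1 / 3)) (pt (-1) 1 s)).re
      nlinarith
    have h5 : ∑ j ∈ range p, ‖∑' n, (d n : ℂ) * (ζ ^ j * (‖pt (-1) 1 s‖ : ℂ)) ^ n‖ ≤
        ∑ j ∈ range p, Real.exp (GG (· ∈ S) (ee (1 / 3)) (pt (ζ ^ j) 0 s)).re +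
        ∑ j ∈ range p, Real.exp (GG (· ∈ S) (ee (2 / 3)) (pt (ζ ^ j) 0 s)).re := by
      rw [← Finset.sum_add_distrib]
      refine Finset.sum_le_sum fun j _ => ?_
      rw [norm_pt hm1]
      have e : ζ ^ j * ((Real.exp (-s) : ℝ) : ℂ) = pt (ζ ^ j) 0 s := by
        rw [pt]; push_cast; congr 2; ring
      rw [e]
      exact hup _ (norm_pt_lt (hzj j) 0 hs')
    have h6 := Real.exp_pos (GG (· ∈ S) (ee (1 / 3)) (pt (-1) 1 s)).re
    linarith

end Pool.Agent.Results.MP_fabcd1_nt.OddPartsModThree
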